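import Pool.Agent.Results.MP_51801e_lc.ResetThreshold

/-!
# Linear reset thresholds for automata won against bounded adversaries

There are constants `C, D > 0` (both can be taken to be `1`) such that every `A_k`-automaton with
`n` states and `k ≥ D n` has reset threshold at most `C n`.
-/

namespace Pool.Agent.Results.MP_165503_lc.LinearThreshold

open Pool.Agent.Results.MP_51801e_lc.ResetThreshold

universe u v

/-- **Theorem** (answer to Q1: yes). There are real constants `C, D > 0` such that every
`A_k`-automaton with `n` states, `k ≥ D n`, is synchronizing with reset threshold at most `C n`.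
In fact every `A_k`-automaton with `n ≤ k + 2` states has reset threshold at most `n - 1`. -/
theorem result :
    (∃ C D : ℝ, 0 < C ∧ 0 < D ∧
      ∀ (n k : ℕ) (Q : Type u) (S : Type v) [Fintype Q] [Nonempty Q] (δ : Q → S → Q),
        Fintype.card Q = n → D * n ≤ k → AliceWins δ k →
          IsSynchronizing δ ∧ (rt δ : ℝ) ≤ C * n) ∧
    (∀ (n k : ℕ) (Q : Type u) (S : Type v) [Fintype Q] [Nonempty Q] (δ : Q → S → Q),
        Fintype.card Q = n → n ≤ k + 2 → AliceWins δ k →
          IsSynchronizing δ ∧ rt δ ≤ n - 1) := by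
  have key : ∀ (n k : ℕ) (Q : Type u) (S : Type v) [Fintype Q] [Nonempty Q] (δ : Q → S → Q),
        Fintype.card Q = n → n ≤ k + 2 → AliceWins δ k →
          IsSynchronizing δ ∧ rt δ ≤ n - 1 := by
    intro n k Q S _ _ δ hn hk hA
    have := Pool.Agent.Results.MP_51801e_lc.ResetThreshold.result.2 k Q S δ (by omega) hA
    rw [hn] at this
    exact this
  refine ⟨⟨1, 1, one_pos, one_pos, ?_⟩, key⟩
  intro n k Q S _ _ δ hn hk hA
  have hk' : n ≤ k := by
    have : (n : ℝ) ≤ (k : ℝ) := by simpa using hk
    exact_mod_cast this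
  obtain ⟨h1, h2⟩ := key n k Q S δ hn (by omega) hA
  refine ⟨h1, ?_⟩
  have h3 : rt δ ≤ n := by omega
  have : (rt δ : ℝ) ≤ (n : ℝ) := by exact_mod_cast h3
  simpa using this

end Pool.Agent.Results.MP_165503_lc.LinearThreshold
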